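import Pool.Agent.W2helper39.DR.Lower

set_option autoImplicit false

/-!
# The lower bound: conclusion
-/

namespace Pool.Agent.W2helper39.DR

open Finset

open Classical in
/-- the colour of a pair -/
noncomputable def chi {n : ℕ} (G : SimpleGraph (Fin n)) (i j : Fin n) : ℝ :=
  if G.Adj i j then 1 else -1

lemma chi_symm {n : ℕ} (G : SimpleGraph (Fin n)) (i j : Fin n) : chi G i j = chi G j i := by
  unfold chi
  by_cases h : G.Adj i j
  · rw [if_pos h, if_pos h.symm]
  · rw [if_neg h, if_neg (fun h' => h h'.symm)]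

/-- a set of half of the points on which `v` has one colour -/
lemma half {n : ℕ} (G : SimpleGraph (Fin n)) (v : Fin n) :
    ∃ (P : Finset (Fin n)) (σ : ℝ), P.card = (n + 1) / 2 ∧ (σ = 1 ∨ σ = -1) ∧
      ∀ u, wt P u ≤ σ * chi G v u := by
  classical
  have h1 := card_filter_add_card_filter_not (s := (univ : Finset (Fin n)))
    (p := fun u => G.Adj v u)
  rw [card_univ, Fintype.card_fin] at h1
  rcases Nat.lt_or_ge ({u | G.Adj v u} : Finset (Fin n)).card ((n + 1) / 2) with h | h
  swap
  · obtain ⟨P, hP, hc⟩ := exists_subset_card_eq h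
    refine ⟨P, 1, hc, Or.inl rfl, fun u => ?_⟩
    unfold wt chi
    by_cases hu : u ∈ P
    · have := hP hu
      rw [mem_filter] at this
      simp [hu, this.2]
    · rw [if_neg hu]
      split_ifs <;> norm_num
  · have h2 : (n + 1) / 2 ≤ ({u | ¬ G.Adj v u} : Finset (Fin n)).card := by
      omega
    obtain ⟨P, hP, hc⟩ := exists_subset_card_eq h2
    refine ⟨P, -1, hc, Or.inr rfl, fun u => ?_⟩
    unfold wt chi
    by_cases hu : u ∈ P
    · have := hP hu
      rw [mem_filter] at this
      simp [hu, this.2]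
    · rw [if_neg hu]
      split_ifs <;> norm_num

/-- the colour sum over ordered pairs -/
noncomputable def tot {n : ℕ} (G : SimpleGraph (Fin n)) (X : Finset (Fin n)) : ℝ :=
  ∑ i ∈ X, ∑ j ∈ X, if i = j then 0 else chi G i j

lemma tot_eq {n : ℕ} (G : SimpleGraph (Fin n)) (X : Finset (Fin n)) :
    tot G X = 2 * ((inside G X : ℝ) - inside Gᶜ X) := by
  classical
  have h1 : ∀ i j : Fin n, (if i = j then 0 else chi G i j) =
      (if i < j then chi G i j else 0) + (if j < i then chi G i j else 0) := by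
    intro i j
    rcases lt_trichotomy i j with h | h | h
    · simp [h, h.ne, not_lt.2 h.le]
    · simp [h]
    · simp [h, h.ne', not_lt.2 h.le]
  have h2 : ∑ i ∈ X, ∑ j ∈ X, (if j < i then chi G i j else 0) =
      ∑ i ∈ X, ∑ j ∈ X, (if i < j then chi G i j else 0) := by
    rw [sum_comm]
    refine sum_congr rfl fun i _ => sum_congr rfl fun j _ => ?_
    rw [chi_symm]
  have h3 : (inside G X : ℝ) - inside Gᶜ X =
      ∑ i ∈ X, ∑ j ∈ X, (if i < j then chi G i j else 0) := by
    unfold inside
    rw [card_filter, card_filter, sum_product, sum_product]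
    push_cast
    rw [← sum_sub_distrib]
    refine sum_congr rfl fun i _ => ?_
    rw [← sum_sub_distrib]
    refine sum_congr rfl fun j _ => ?_
    unfold chi
    by_cases hij : i < j
    · by_cases ha : G.Adj i j
      · simp [hij, ha]
      · simp [hij, ha, hij.ne]
    · simp [hij]
  unfold tot
  simp only [h1, sum_add_distrib]
  rw [h2, h3]
  ring

lemma tot_union {n : ℕ} (G : SimpleGraph (Fin n)) {R T : Finset (Fin n)} (h : Disjoint R T) :
    tot G (R ∪ T) = tot G R + tot G T + 2 * ∑ v ∈ T, ∑ u ∈ R, chi G v u := by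
  classical
  unfold tot
  rw [sum_union h]
  simp only [sum_union h, sum_add_distrib]
  have e1 : ∑ i ∈ R, ∑ j ∈ T, (if i = j then 0 else chi G i j) = ∑ v ∈ T, ∑ u ∈ R, chi G v u := by
    rw [sum_comm]
    refine sum_congr rfl fun v hv => sum_congr rfl fun u hu => ?_
    rw [if_neg (by rintro rfl; exact disjoint_left.1 h hu hv), chi_symm]
  have e2 : ∑ i ∈ T, ∑ j ∈ R, (if i = j then 0 else chi G i j) = ∑ v ∈ T, ∑ u ∈ R, chi G v u := by
    refine sum_congr rfl fun v hv => sum_congr rfl fun u hu => ?_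
    rw [if_neg (by rintro rfl; exact disjoint_left.1 h hu hv)]
  rw [e1, e2]
  ring

/-- **The lower bound.** -/
theorem lower {n s : ℕ} {α : ℝ} (hα : α < 1 / 2) (hα2 : 1 / 2 - α ≤ 1 / 36)
    (hs1 : 1 ≤ s) (hs : s ≤ n) (h2 : 2 ≤ Real.exp ((6 * (1 / 2 - α)) ^ 2 * s))
    (hbig : 3 * (s : ℝ) + s ^ 2 < n * (Real.exp (-(9 * (6 * (1 / 2 - α)) ^ 2 * s)) / 12))
    {m : ℕ} (hm : m ≤ s) : ¬ Splits n α m := by
  classical
  rintro ⟨G, hG⟩
  set δ := 1 / 2 - α with hδ
  set ε := 6 * δ with hε
  have hδ0 : 0 < δ := by linarith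
  have hε0 : 0 ≤ ε := by positivity
  have hε1 : ε ≤ 1 / 6 := by linarith
  have hn : 1 ≤ n := hs1.trans hs
  choose P σ hP hσ hw using fun v => half G v
  set Gd : Fin n → Finset (Fin s → Fin n) := fun v =>
    {S : Fin s → Fin n | ε * s ≤ ∑ j, wt (P v) (S j)} with hGd
  have hanti : ∀ v, (n : ℝ) ^ s * (Real.exp (-(9 * ε ^ 2 * s)) / 12) ≤ ((Gd v).card : ℝ) :=
    fun v => anti hn (P v) (hP v) hε0 hε1 hs h2
  -- the popular vertices of a tuple
  set Nb : (Fin s → Fin n) → Finset (Fin n) := fun S => {v | S ∈ Gd v} with hNb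
  have hdouble : ∑ v, ((Gd v).card : ℝ) = ∑ S : Fin s → Fin n, ((Nb S).card : ℝ) := by
    have e1 : ∀ v, ((Gd v).card : ℝ) = ∑ S : Fin s → Fin n, (if S ∈ Gd v then (1 : ℝ) else 0) := by
      intro v
      rw [sum_boole]
      congr 2
      ext S
      simp
    have e2 : ∀ S : Fin s → Fin n, ((Nb S).card : ℝ) = ∑ v, (if S ∈ Gd v then (1 : ℝ) else 0) := by
      intro S
      rw [sum_boole]
    rw [sum_congr rfl fun v _ => e1 v, sum_comm, sum_congr rfl fun S _ => (e2 S).symm]
  obtain ⟨S, hinj, hS⟩ : ∃ S : Fin s → Fin n, Function.Injective S ∧ 3 * s ≤ (Nb S).card := by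
    by_contra hno
    push Not at hno
    have h3 : ∑ S : Fin s → Fin n, ((Nb S).card : ℝ) ≤
        (3 * (s : ℝ)) * (n : ℝ) ^ s + (s : ℝ) ^ 2 * (n : ℝ) ^ s := by
      rw [← sum_filter_add_sum_filter_not univ (fun S : Fin s → Fin n => Function.Injective S)]
      refine add_le_add ?_ ?_
      · calc ∑ S ∈ univ.filter (fun S : Fin s → Fin n => Function.Injective S),
              ((Nb S).card : ℝ)
            ≤ ∑ _S ∈ univ.filter (fun S : Fin s → Fin n => Function.Injective S),
              (3 * (s : ℝ)) := by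
              refine sum_le_sum fun S hS => ?_
              rw [mem_filter] at hS
              exact_mod_cast (hno S hS.2).le
          _ ≤ ∑ _S : Fin s → Fin n, (3 * (s : ℝ)) :=
              sum_le_univ_sum_of_nonneg fun _ => by positivity
          _ = _ := by
              rw [sum_const, nsmul_eq_mul, card_univ, Fintype.card_fun, Fintype.card_fin,
                Fintype.card_fin]
              push_cast; ring
      · calc ∑ S ∈ univ.filter (fun S : Fin s → Fin n => ¬ Function.Injective S),
              ((Nb S).card : ℝ)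
            ≤ ∑ _S ∈ univ.filter (fun S : Fin s → Fin n => ¬ Function.Injective S), (n : ℝ) := by
              refine sum_le_sum fun S _ => ?_
              have := card_le_univ (Nb S)
              rw [Fintype.card_fin] at this
              exact_mod_cast this
          _ = (n : ℝ) * (({S : Fin s → Fin n | ¬ Function.Injective S} :
                Finset (Fin s → Fin n)).card : ℝ) := by
              rw [sum_const, nsmul_eq_mul, mul_comm]
          _ ≤ _ := noninj hn hs1 hs
    have h4 : (n : ℝ) * ((n : ℝ) ^ s * (Real.exp (-(9 * ε ^ 2 * s)) / 12)) ≤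
        ∑ v, ((Gd v).card : ℝ) := by
      calc _ = ∑ _v : Fin n, ((n : ℝ) ^ s * (Real.exp (-(9 * ε ^ 2 * s)) / 12)) := by
            rw [sum_const, nsmul_eq_mul, card_univ, Fintype.card_fin]
        _ ≤ _ := sum_le_sum fun v _ => hanti v
    rw [hdouble] at h4
    have h5 : (0 : ℝ) < (n : ℝ) ^ s := by
      have : (0 : ℝ) < n := by exact_mod_cast hn
      positivity
    nlinarith [mul_lt_mul_of_pos_left hbig h5]
  -- the image of `S`
  set R : Finset (Fin n) := univ.image S with hR
  have hRc : R.card = s := by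
    rw [hR, card_image_of_injective _ hinj, card_univ, Fintype.card_fin]
  set V' := Nb S \ R with hV'
  have hV'c : 2 * s ≤ V'.card := by
    have h3 : (Nb S).card - R.card ≤ V'.card := le_card_sdiff R (Nb S)
    omega
  -- one of the signs is taken often
  obtain ⟨τ, hτ, T, hT, hTc⟩ : ∃ τ : ℝ, (τ = 1 ∨ τ = -1) ∧ ∃ T ⊆ V'.filter (fun v => σ v = τ),
      T.card = s := by
    have h3 := card_filter_add_card_filter_not (s := V') (p := fun v => σ v = 1)
    rcases le_total s (V'.filter (fun v => σ v = 1)).card with h | h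
    · obtain ⟨T, hT, hc⟩ := exists_subset_card_eq h
      exact ⟨1, Or.inl rfl, T, hT, hc⟩
    · have h4 : s ≤ (V'.filter (fun v => σ v = -1)).card := by
        have h5 : (V'.filter (fun v => ¬ σ v = 1)).card ≤ (V'.filter (fun v => σ v = -1)).card := by
          refine card_le_card fun v hv => ?_
          rw [mem_filter] at hv ⊢
          exact ⟨hv.1, (hσ v).resolve_left hv.2⟩
        omega
      obtain ⟨T, hT, hc⟩ := exists_subset_card_eq h4
      exact ⟨-1, Or.inr rfl, T, hT, hc⟩
  have hdisj : Disjoint R T := by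
    rw [disjoint_left]
    intro u hu hv
    have := hT hv
    rw [mem_filter, hV', mem_sdiff] at this
    exact this.1.2 hu
  have hrow : ∀ v ∈ T, ε * s ≤ τ * ∑ u ∈ R, chi G v u := by
    intro v hv
    have h3 := hT hv
    rw [mem_filter, hV', mem_sdiff, hNb, mem_filter] at h3
    have h4 : ε * s ≤ ∑ j, wt (P v) (S j) := by
      have := h3.1.1.2
      rw [hGd, mem_filter] at this
      exact this.2
    refine h4.trans ?_
    rw [hR, sum_image (fun a _ b _ h => hinj h), mul_sum]
    refine sum_le_sum fun j _ => ?_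
    have := hw v (S j)
    rwa [h3.2] at this
  have hcross : ε * s * s ≤ τ * ∑ v ∈ T, ∑ u ∈ R, chi G v u := by
    rw [mul_sum]
    calc ε * s * s = ∑ _v ∈ T, ε * (s : ℝ) := by rw [sum_const, hTc, nsmul_eq_mul]; ring
      _ ≤ _ := sum_le_sum hrow
  -- the colour sums are small
  have hsmall : ∀ X : Finset (Fin n), s ≤ X.card → |tot G X| < 2 * δ * (X.card : ℝ) ^ 2 := by
    intro X hX
    obtain ⟨h3, h4⟩ := hG X (hm.trans hX)
    have h5 : (inside G X : ℝ) + inside Gᶜ X = (X.card.choose 2 : ℕ) := by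
      exact_mod_cast inside_le G X
    have h6 : ((X.card.choose 2 : ℕ) : ℝ) = X.card * ((X.card : ℝ) - 1) / 2 :=
      Nat.cast_choose_two ℝ _
    have h7 : (0 : ℝ) ≤ X.card := Nat.cast_nonneg _
    have h8 : |(inside G X : ℝ) - inside Gᶜ X| < 2 * δ * (X.card.choose 2 : ℕ) := by
      rw [abs_lt]
      constructor
      · rw [hδ]; nlinarith
      · rw [hδ]; nlinarith
    rw [tot_eq, abs_mul, abs_two]
    have h9 : 2 * (2 * δ * ((X.card.choose 2 : ℕ) : ℝ)) ≤ 2 * δ * (X.card : ℝ) ^ 2 := by
      rw [h6]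
      nlinarith [mul_nonneg hδ0.le h7]
    linarith
  have hRT : (R ∪ T).card = 2 * s := by
    rw [card_union_of_disjoint hdisj, hRc, hTc]; ring
  have a1 := hsmall R hRc.ge
  have a2 := hsmall T hTc.ge
  have a3 := hsmall (R ∪ T) (by rw [hRT]; omega)
  rw [hRc] at a1
  rw [hTc] at a2
  rw [hRT] at a3
  push_cast at a3
  have a4 := tot_union G hdisj
  rw [abs_lt] at a1 a2 a3
  have hs0 : (1 : ℝ) ≤ s := by exact_mod_cast hs1
  rcases hτ with h | h
  · rw [h, one_mul] at hcross
    nlinarith
  · rw [h] at hcross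
    nlinarith

end Pool.Agent.W2helper39.DR
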