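import Pool.Agent.W2helper39.DR.Upper
import Pool.Agent.W2helper39.DR.Core

set_option autoImplicit false

/-!
# The asymptotic bounds
-/

namespace Pool.Agent.W2helper39.DR

open Finset Filter Topology

lemma tendsto_logn : Tendsto (fun n : ℕ => Real.log n) atTop atTop :=
  Real.tendsto_log_atTop.comp tendsto_natCast_atTop_atTop

theorem upper_asym {α : ℝ} (hα : α < 1 / 2) {κ : ℝ} (hκ : 1 < κ) :
    ∀ᶠ n : ℕ in atTop, (F n α : ℝ) ≤ κ * Real.log n / (1 / 2 - α) ^ 2 := by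
  set δ := 1 / 2 - α with hδ
  have hδ0 : 0 < δ := by linarith
  have hδ2 : 0 < δ ^ 2 := by positivity
  set κ' := (1 + κ) / 2 with hκ'
  have h1 : Tendsto (fun n : ℕ => (n : ℝ) ^ (-(κ' - 1))) atTop (𝓝 0) :=
    (tendsto_rpow_neg_atTop (by rw [hκ']; linarith)).comp tendsto_natCast_atTop_atTop
  have h2 : ∀ᶠ n : ℕ in atTop, (n : ℝ) ^ (-(κ' - 1)) < 1 / 4 :=
    h1.eventually_lt_const (by norm_num)
  have h3 : ∀ᶠ n : ℕ in atTop, 2 * δ ^ 2 / (κ - κ') ≤ Real.log n :=
    tendsto_logn.eventually_ge_atTop _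
  have h4 : ∀ᶠ n : ℕ in atTop, δ ^ 2 ≤ Real.log n := tendsto_logn.eventually_ge_atTop _
  filter_upwards [h2, h3, h4, eventually_ge_atTop 1] with n a2 a3 a4 an
  have hn0 : (0 : ℝ) < n := by exact_mod_cast an
  have hL : 0 < Real.log n := lt_of_lt_of_le hδ2 a4
  set m := ⌊κ * Real.log n / δ ^ 2⌋₊ with hm
  have hnn : 0 ≤ κ * Real.log n / δ ^ 2 := by positivity
  have hm1 : 1 ≤ m := by
    rw [hm]
    refine Nat.le_floor ?_
    rw [Nat.cast_one, le_div_iff₀ hδ2]
    nlinarith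
  have hmf : κ * Real.log n / δ ^ 2 - 1 < m := Nat.sub_one_lt_floor _
  have hmle : (m : ℝ) ≤ κ * Real.log n / δ ^ 2 := Nat.floor_le hnn
  set x : ℝ := (n : ℝ) ^ (-κ') with hx
  have hx0 : 0 < x := Real.rpow_pos_of_pos hn0 _
  have hsp : Splits n α m := by
    refine upper (x := x) hα.le hx0.le ?_ hm1 ?_
    · have h5 : (1 + x) ^ n ≤ Real.exp (n * x) := by
        rw [Real.exp_nat_mul]
        refine pow_le_pow_left₀ (by positivity) ?_ _
        have := Real.add_one_le_exp x; linarith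
      have h6 : (n : ℝ) * x = (n : ℝ) ^ (-(κ' - 1)) := by
        rw [hx]
        conv_lhs => rw [← Real.rpow_one (n : ℝ)]
        rw [Real.rpow_one, ← Real.rpow_one_add' hn0.le]
        · congr 1; ring
        · rw [hκ']; linarith
      have h7 : Real.exp ((n : ℝ) * x) ≤ 1 / (1 - (n : ℝ) * x) := by
        rw [h6]
        have h8 := Real.add_one_le_exp (-((n : ℝ) ^ (-(κ' - 1))))
        rw [le_div_iff₀ (by linarith)]
        have h9 : Real.exp ((n : ℝ) ^ (-(κ' - 1))) * Real.exp (-((n : ℝ) ^ (-(κ' - 1)))) = 1 := by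
          rw [← Real.exp_add]; simp
        have h10 := Real.exp_pos ((n : ℝ) ^ (-(κ' - 1)))
        nlinarith
      have h8 : 1 / (1 - (n : ℝ) * x) < 4 / 3 := by
        rw [h6, div_lt_div_iff₀ (by linarith) (by norm_num)]
        linarith
      linarith
    · rw [hx, Real.rpow_def_of_pos hn0, Real.exp_le_exp]
      have h5 : κ * Real.log n - δ ^ 2 < δ ^ 2 * m := by
        have := mul_lt_mul_of_pos_left hmf hδ2
        rw [mul_sub, mul_one, mul_div_cancel₀ _ hδ2.ne'] at this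
        exact this
      have h6 : 2 * δ ^ 2 ≤ (κ - κ') * Real.log n := by
        rw [div_le_iff₀ (by rw [hκ']; linarith)] at a3
        linarith
      have h7 : δ ^ 2 * ((m : ℝ) - 1) = δ ^ 2 * m - δ ^ 2 := by ring
      have h8 : (κ - κ') * Real.log n = κ * Real.log n - κ' * Real.log n := by ring
      have h9 : Real.log n * -κ' = -(κ' * Real.log n) := by ring
      rw [← hδ, h7, h9]
      linarith
  have := F_le hm1 hsp
  have h5 : (F n α : ℝ) ≤ m := by exact_mod_cast this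
  exact h5.trans hmle

theorem lower_asym {α : ℝ} (hα : α < 1 / 2) (hα2 : 17 / 36 ≤ α) :
    ∀ᶠ n : ℕ in atTop, Real.log n / (648 * (1 / 2 - α) ^ 2) ≤ (F n α : ℝ) := by
  set δ := 1 / 2 - α with hδ
  have hδ0 : 0 < δ := by linarith
  have hδ2 : 0 < 648 * δ ^ 2 := by positivity
  set C := 1 / (648 * δ ^ 2) with hC
  have hC0 : 0 < C := by positivity
  set c := 1 / (13 * (3 * C + C ^ 2) + 1) with hc
  have hc0 : 0 < c := by positivity
  have hc1 : c ≤ 1 := by
    rw [hc, div_le_one (by positivity)]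
    nlinarith [sq_nonneg C]
  have h1 : ∀ᶠ n : ℕ in atTop, ‖Real.log n‖ ≤ c * ‖(n : ℝ) ^ (1 / 4 : ℝ)‖ :=
    tendsto_natCast_atTop_atTop.eventually
      ((isLittleO_log_rpow_atTop (r := 1 / 4) (by norm_num)).def hc0)
  have h2 : ∀ᶠ n : ℕ in atTop, 648 * δ ^ 2 * (1 / (36 * δ ^ 2) + 1) + 1 ≤ Real.log n :=
    tendsto_logn.eventually_ge_atTop _
  filter_upwards [h1, h2, eventually_ge_atTop 1] with n a1 a2 an
  have hn0 : (0 : ℝ) < n := by exact_mod_cast an
  have hn1 : (1 : ℝ) ≤ n := by exact_mod_cast an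
  have hq0 : 0 < 648 * δ ^ 2 * (1 / (36 * δ ^ 2) + 1) := by positivity
  have hL1 : 1 ≤ Real.log n := by linarith
  rw [Real.norm_of_nonneg (by linarith), Real.norm_of_nonneg (by positivity)] at a1
  set L := Real.log n with hL
  set s := ⌊L / (648 * δ ^ 2)⌋₊ with hs
  have hsle : (s : ℝ) ≤ C * L := by
    have : (s : ℝ) ≤ L / (648 * δ ^ 2) := Nat.floor_le (by positivity)
    rw [hC]; linarith [show 1 / (648 * δ ^ 2) * L = L / (648 * δ ^ 2) by ring]
  have hsge : L / (648 * δ ^ 2) < s + 1 := Nat.lt_floor_add_one _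
  have hsge2 : 1 / (36 * δ ^ 2) ≤ s := by
    have h3 : 1 / (36 * δ ^ 2) + 1 ≤ L / (648 * δ ^ 2) := by
      rw [le_div_iff₀ hδ2]; linarith
    linarith
  have hs1 : 1 ≤ s := by
    rw [hs]
    refine Nat.le_floor ?_
    rw [Nat.cast_one, le_div_iff₀ hδ2]
    have : 0 < 1 / (36 * δ ^ 2) := by positivity
    nlinarith
  -- the square root of `n`
  have hsq : ((n : ℝ) ^ (1 / 4 : ℝ)) ^ 2 = Real.sqrt n := by
    rw [← Real.rpow_natCast, ← Real.rpow_mul hn0.le, Real.sqrt_eq_rpow]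
    norm_num
  have hbig : 3 * (s : ℝ) + s ^ 2 < Real.sqrt n / 12 := by
    have h3 : 3 * (s : ℝ) + s ^ 2 ≤ (3 * C + C ^ 2) * L ^ 2 := by
      have h4 : (s : ℝ) ^ 2 ≤ (C * L) ^ 2 := pow_le_pow_left₀ (Nat.cast_nonneg _) hsle 2
      have h5 : C * L ≤ C * L ^ 2 := by
        refine mul_le_mul_of_nonneg_left ?_ hC0.le
        nlinarith
      nlinarith
    have h4 : L ^ 2 ≤ c ^ 2 * Real.sqrt n := by
      rw [← hsq, ← mul_pow]
      exact pow_le_pow_left₀ (by linarith) a1 2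
    have h5 : c ^ 2 ≤ c := by nlinarith
    have h6 : (3 * C + C ^ 2) * c < 1 / 12 := by
      rw [hc, mul_one_div, div_lt_div_iff₀ (by positivity) (by norm_num)]
      nlinarith [sq_nonneg C]
    have h7 : 0 < Real.sqrt n := Real.sqrt_pos.2 hn0
    have h8 : 0 < 3 * C + C ^ 2 := by positivity
    calc 3 * (s : ℝ) + s ^ 2 ≤ (3 * C + C ^ 2) * L ^ 2 := h3
      _ ≤ (3 * C + C ^ 2) * (c ^ 2 * Real.sqrt n) := mul_le_mul_of_nonneg_left h4 h8.le
      _ ≤ (3 * C + C ^ 2) * (c * Real.sqrt n) :=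
          mul_le_mul_of_nonneg_left (mul_le_mul_of_nonneg_right h5 h7.le) h8.le
      _ = ((3 * C + C ^ 2) * c) * Real.sqrt n := by ring
      _ < 1 / 12 * Real.sqrt n := mul_lt_mul_of_pos_right h6 h7
      _ = Real.sqrt n / 12 := by ring
  have hsqn : Real.sqrt n ≤ n := by
    rw [Real.sqrt_le_left hn0.le]
    nlinarith
  have hsn : s ≤ n := by
    have h3 : (s : ℝ) ≤ n := by
      have : (0 : ℝ) ≤ s := Nat.cast_nonneg _
      have h4 : (0 : ℝ) ≤ Real.sqrt n := Real.sqrt_nonneg _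
      nlinarith
    exact_mod_cast h3
  have hexp : Real.sqrt n ≤ n * Real.exp (-(9 * (6 * δ) ^ 2 * s)) := by
    have h3 : 9 * (6 * δ) ^ 2 * s ≤ L / 2 := by
      have h4 : (s : ℝ) ≤ L / (648 * δ ^ 2) := Nat.floor_le (by positivity)
      rw [le_div_iff₀ hδ2] at h4
      nlinarith
    have h4 : Real.exp (-(L / 2)) ≤ Real.exp (-(9 * (6 * δ) ^ 2 * s)) :=
      Real.exp_le_exp.2 (by linarith)
    have h5 : (n : ℝ) * Real.exp (-(L / 2)) = Real.sqrt n := by
      have h6 : (n : ℝ) = Real.exp L := (Real.exp_log hn0).symm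
      rw [Real.sqrt_eq_rpow, Real.rpow_def_of_pos hn0, ← hL]
      conv_lhs => rw [h6]
      rw [← Real.exp_add]
      congr 1; ring
    rw [← h5]
    exact mul_le_mul_of_nonneg_left h4 hn0.le
  have h2e : 2 ≤ Real.exp ((6 * δ) ^ 2 * s) := by
    have h3 : 1 ≤ (6 * δ) ^ 2 * s := by
      have h4 : 0 < 36 * δ ^ 2 := by positivity
      rw [div_le_iff₀ h4] at hsge2
      nlinarith
    have h4 := Real.add_one_le_exp ((6 * δ) ^ 2 * (s : ℝ))
    linarith
  have hlt : s < F n α := by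
    by_contra hcon
    push Not at hcon
    refine lower hα (by linarith) hs1 hsn h2e ?_ hcon (F_spec n α).2
    rw [← mul_div_assoc]
    exact hbig.trans_le (div_le_div_of_nonneg_right hexp (by norm_num))
  have h3 : (s : ℝ) + 1 ≤ F n α := by exact_mod_cast hlt
  linarith

end Pool.Agent.W2helper39.DR
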