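import Mathlib

set_option autoImplicit false

/-!
# The graph discrepancy Ramsey function: definitions and simple facts
-/

namespace Pool.Agent.W2helper39.DR

open Finset

open Classical in
/-- The number of pairs of elements of `X` that are edges of `G`. -/
noncomputable def inside {n : ℕ} (G : SimpleGraph (Fin n)) (X : Finset (Fin n)) : ℕ :=
  {p ∈ X ×ˢ X | p.1 < p.2 ∧ G.Adj p.1 p.2}.card

/-- Some 2-colouring of the pairs of an `n`-set (the edges of `G` and those of its complement) has,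
inside every set `X` of size at least `m`, more than `α * (|X| choose 2)` pairs of each colour. -/
def Splits (n : ℕ) (α : ℝ) (m : ℕ) : Prop :=
  ∃ G : SimpleGraph (Fin n), ∀ X : Finset (Fin n), m ≤ X.card →
    α * (X.card.choose 2 : ℕ) < inside G X ∧ α * (X.card.choose 2 : ℕ) < inside Gᶜ X

/-- The discrepancy Ramsey function. -/
noncomputable def F (n : ℕ) (α : ℝ) : ℕ := sInf {m | 1 ≤ m ∧ Splits n α m}

/-- the pairs inside `X` -/
def prs {n : ℕ} (X : Finset (Fin n)) : Finset (Fin n × Fin n) := {p ∈ X ×ˢ X | p.1 < p.2}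

lemma card_prs {n : ℕ} (X : Finset (Fin n)) : (prs X).card = X.card.choose 2 := by
  have h1 : (prs X).card = ({p ∈ X ×ˢ X | p.2 < p.1} : Finset (Fin n × Fin n)).card := by
    refine card_bij' (fun p _ => p.swap) (fun p _ => p.swap) ?_ ?_ ?_ ?_
    · intro p hp
      simp only [prs, mem_filter, mem_product] at hp ⊢
      exact ⟨⟨hp.1.2, hp.1.1⟩, hp.2⟩
    · intro p hp
      simp only [prs, mem_filter, mem_product] at hp ⊢
      exact ⟨⟨hp.1.2, hp.1.1⟩, hp.2⟩
    · intro p _; simp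
    · intro p _; simp
  have h2 : X.offDiag = prs X ∪ ({p ∈ X ×ˢ X | p.2 < p.1} : Finset (Fin n × Fin n)) := by
    ext p
    simp only [mem_offDiag, prs, mem_union, mem_filter, mem_product]
    constructor
    · rintro ⟨a, b, c⟩
      rcases lt_or_gt_of_ne c with h | h
      · exact Or.inl ⟨⟨a, b⟩, h⟩
      · exact Or.inr ⟨⟨a, b⟩, h⟩
    · rintro (⟨⟨a, b⟩, c⟩ | ⟨⟨a, b⟩, c⟩)
      · exact ⟨a, b, c.ne⟩
      · exact ⟨a, b, c.ne'⟩
  have h3 : Disjoint (prs X) ({p ∈ X ×ˢ X | p.2 < p.1} : Finset (Fin n × Fin n)) := by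
    rw [disjoint_left]
    intro p hp hq
    simp only [prs, mem_filter] at hp hq
    exact absurd hp.2 (not_lt.2 hq.2.le)
  have h4 := offDiag_card X
  rw [h2, card_union_of_disjoint h3, ← h1] at h4
  rw [Nat.choose_two_right]
  have h5 : X.card * (X.card - 1) = X.card * X.card - X.card := by
    rw [Nat.mul_sub, mul_one]
  rw [h5]
  omega

lemma inside_le {n : ℕ} (G : SimpleGraph (Fin n)) (X : Finset (Fin n)) :
    inside G X + inside Gᶜ X = X.card.choose 2 := by
  classical
  rw [← card_prs X]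
  unfold inside prs
  rw [← card_union_of_disjoint]
  · congr 1
    ext p
    simp only [mem_union, mem_filter, mem_product, SimpleGraph.compl_adj]
    constructor
    · rintro (⟨h, h2, h3⟩ | ⟨h, h2, h3⟩) <;> exact ⟨h, h2⟩
    · rintro ⟨h, h2⟩
      by_cases h3 : G.Adj p.1 p.2
      · exact Or.inl ⟨h, h2, h3⟩
      · exact Or.inr ⟨h, h2, h2.ne, h3⟩
  · rw [disjoint_left]
    intro p hp hq
    simp only [mem_filter, SimpleGraph.compl_adj] at hp hq
    exact hq.2.2.2 hp.2.2

lemma splits_exists (n : ℕ) (α : ℝ) : ({m | 1 ≤ m ∧ Splits n α m} : Set ℕ).Nonempty := by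
  refine ⟨n + 1, by omega, ⊤, fun X hX => ?_⟩
  have := card_le_univ X
  rw [Fintype.card_fin] at this
  omega

lemma F_spec (n : ℕ) (α : ℝ) : 1 ≤ F n α ∧ Splits n α (F n α) :=
  Nat.sInf_mem (splits_exists n α)

lemma F_le {n : ℕ} {α : ℝ} {m : ℕ} (hm : 1 ≤ m) (h : Splits n α m) : F n α ≤ m :=
  Nat.sInf_le ⟨hm, h⟩

end Pool.Agent.W2helper39.DR
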