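import Pool.Agent.W2helper39.DR.Defs

set_option autoImplicit false

/-!
# The lower bound: random sets and their popular neighbours
-/

namespace Pool.Agent.W2helper39.DR

open Finset

/-- the weight of a point -/
noncomputable def wt {V : Type*} [DecidableEq V] (P : Finset V) (u : V) : ℝ :=
  if u ∈ P then 1 else -1

lemma moment {V : Type*} [Fintype V] [DecidableEq V] (P : Finset V) (β : ℝ) (s : ℕ) :
    ∑ S : Fin s → V, Real.exp (β * ∑ j, wt P (S j)) =
      (P.card * Real.exp β + ((Fintype.card V : ℝ) - P.card) * Real.exp (-β)) ^ s := by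
  have h1 : ∀ S : Fin s → V, Real.exp (β * ∑ j, wt P (S j)) = ∏ j, Real.exp (β * wt P (S j)) := by
    intro S
    rw [mul_sum, Real.exp_sum]
  rw [sum_congr rfl fun S _ => h1 S, ← Fintype.sum_pow (fun u : V => Real.exp (β * wt P u)) s]
  congr 1
  have h2 : ∀ u : V, Real.exp (β * wt P u) =
      (if u ∈ P then Real.exp β - Real.exp (-β) else 0) + Real.exp (-β) := by
    intro u
    unfold wt
    by_cases h : u ∈ P
    · simp [h]
    · simp [h]
  rw [sum_congr rfl fun u _ => h2 u, sum_add_distrib, sum_ite_mem, univ_inter, sum_const,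
    sum_const, card_univ, nsmul_eq_mul, nsmul_eq_mul]
  ring

lemma cosh_ratio (β : ℝ) : Real.exp (-β ^ 2) * Real.cosh (2 * β) ≤ Real.cosh β ^ 2 := by
  have h1 : Real.cosh (2 * β) = 2 * Real.cosh β ^ 2 - 1 := by
    rw [Real.cosh_two_mul]
    have := Real.cosh_sq β
    linarith
  set C := Real.cosh (2 * β) with hC
  have hC1 : 1 ≤ C := Real.one_le_cosh _
  set e := Real.exp (-β ^ 2) with he
  have he0 : 0 < e := Real.exp_pos _
  have h2 : e ^ 2 * C ≤ 1 := by
    have h3 : C ≤ Real.exp (2 * β ^ 2) := by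
      refine (Real.cosh_le_exp_half_sq _).trans (Real.exp_le_exp.2 ?_)
      nlinarith
    have h4 : e ^ 2 * Real.exp (2 * β ^ 2) = 1 := by
      rw [he, ← Real.exp_nat_mul, ← Real.exp_add]
      simp
    nlinarith [mul_le_mul_of_nonneg_left h3 (sq_nonneg e)]
  have h3 : e * C ≤ (1 + C) / 2 := by
    nlinarith [sq_nonneg (1 - e * C), mul_le_mul_of_nonneg_right h2 (by linarith : (0:ℝ) ≤ C)]
  have h4 : Real.cosh β ^ 2 = (1 + C) / 2 := by linarith
  rw [h4]
  exact h3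

lemma cosh_low {ε : ℝ} (h0 : 0 ≤ ε) (h1 : ε ≤ 1 / 6) : Real.exp (4 * ε ^ 2) ≤ Real.cosh (3 * ε) := by
  have h2 : 1 + (3 * ε) ^ 2 / 2 ≤ Real.cosh (3 * ε) := by
    have h3 : Real.cosh (3 * ε) = 1 + 2 * Real.sinh (3 * ε / 2) ^ 2 := by
      have h4 : 3 * ε = 2 * (3 * ε / 2) := by ring
      conv_lhs => rw [h4]
      rw [Real.cosh_two_mul]
      have := Real.cosh_sq (3 * ε / 2)
      linarith
    have h5 : 3 * ε / 2 ≤ Real.sinh (3 * ε / 2) := Real.self_le_sinh_iff.2 (by linarith)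
    rw [h3]
    nlinarith
  refine le_trans ?_ h2
  have h3 : 1 - 4 * ε ^ 2 ≤ Real.exp (-(4 * ε ^ 2)) := by
    have := Real.add_one_le_exp (-(4 * ε ^ 2)); linarith
  have h4 : Real.exp (4 * ε ^ 2) * Real.exp (-(4 * ε ^ 2)) = 1 := by
    rw [← Real.exp_add]; simp
  have h5 : 0 < Real.exp (4 * ε ^ 2) := Real.exp_pos _
  have h6 : ε ^ 2 ≤ 1 / 36 := by nlinarith
  have h7 : Real.exp (4 * ε ^ 2) * (1 - 4 * ε ^ 2) ≤ 1 := by
    exact (mul_le_mul_of_nonneg_left h3 h5.le).trans h4.le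
  have h8 : 1 ≤ (1 + (3 * ε) ^ 2 / 2) * (1 - 4 * ε ^ 2) := by nlinarith [sq_nonneg ε]
  have h9 : 0 < 1 - 4 * ε ^ 2 := by nlinarith
  exact le_of_mul_le_mul_right (h7.trans h8) h9

/-- anti-concentration for the number of points of a random tuple in half of the points -/
lemma anti {n : ℕ} (hn : 1 ≤ n) (P : Finset (Fin n)) (hP : P.card = (n + 1) / 2) {ε : ℝ} {s : ℕ}
    (h0 : 0 ≤ ε) (h1 : ε ≤ 1 / 6) (hs : s ≤ n) (h2 : 2 ≤ Real.exp (ε ^ 2 * s)) :
    (n : ℝ) ^ s * (Real.exp (-(9 * ε ^ 2 * s)) / 12) ≤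
      (({S : Fin s → Fin n | ε * s ≤ ∑ j, wt P (S j)} : Finset (Fin s → Fin n)).card : ℝ) := by
  classical
  set Gd : Finset (Fin s → Fin n) := {S : Fin s → Fin n | ε * s ≤ ∑ j, wt P (S j)} with hGd
  set β := 3 * ε with hβ
  have hβ0 : 0 ≤ β := by positivity
  have hn0 : (0 : ℝ) < n := by exact_mod_cast hn
  have hP1 : (n : ℝ) / 2 ≤ P.card := by
    rw [hP]
    have : n ≤ 2 * ((n + 1) / 2) := by omega
    have : (n : ℝ) ≤ 2 * (((n + 1) / 2 : ℕ) : ℝ) := by exact_mod_cast this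
    linarith
  have hP2 : (P.card : ℝ) ≤ (n + 1) / 2 := by
    rw [hP]
    have : 2 * ((n + 1) / 2) ≤ n + 1 := by omega
    have : 2 * (((n + 1) / 2 : ℕ) : ℝ) ≤ (n : ℝ) + 1 := by exact_mod_cast this
    linarith
  -- first moment
  have ha : ((n : ℝ) * Real.cosh β) ^ s ≤ ∑ S : Fin s → Fin n, Real.exp (β * ∑ j, wt P (S j)) := by
    rw [moment, Fintype.card_fin]
    refine pow_le_pow_left₀ (mul_nonneg hn0.le (Real.cosh_pos _).le) ?_ _
    rw [Real.cosh_eq]
    have h3 : Real.exp (-β) ≤ Real.exp β := Real.exp_le_exp.2 (by linarith)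
    nlinarith [mul_le_mul_of_nonneg_right hP1 (sub_nonneg.2 h3)]
  have hb : ∑ S : Fin s → Fin n, Real.exp (2 * β * ∑ j, wt P (S j)) ≤
      (((n : ℝ) + 1) * Real.cosh (2 * β)) ^ s := by
    rw [moment, Fintype.card_fin]
    have hpos : 0 ≤ (P.card : ℝ) * Real.exp (2 * β) +
        ((n : ℝ) - P.card) * Real.exp (-(2 * β)) := by
      have h4 : (P.card : ℝ) ≤ n := by
        have := card_le_univ P
        rw [Fintype.card_fin] at this
        exact_mod_cast this
      have h5 := Real.exp_pos (2 * β)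
      have h6 := Real.exp_pos (-(2 * β))
      have h7 : 0 ≤ (n : ℝ) - P.card := by linarith
      positivity
    refine pow_le_pow_left₀ hpos ?_ _
    rw [Real.cosh_eq]
    have h3 : Real.exp (-(2 * β)) ≤ Real.exp (2 * β) := Real.exp_le_exp.2 (by linarith)
    have h4 := Real.exp_pos (-(2 * β))
    nlinarith [mul_le_mul_of_nonneg_right hP2 (sub_nonneg.2 h3)]
  -- splitting the first moment
  have hsplit : ∑ S : Fin s → Fin n, Real.exp (β * ∑ j, wt P (S j)) ≤
      (n : ℝ) ^ s * Real.exp (β * (ε * s)) + ∑ S ∈ Gd, Real.exp (β * ∑ j, wt P (S j)) := by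
    rw [← sum_filter_add_sum_filter_not univ (fun S : Fin s → Fin n => ε * s ≤ ∑ j, wt P (S j)),
      add_comm]
    refine add_le_add ?_ le_rfl
    calc ∑ S ∈ univ.filter (fun S : Fin s → Fin n => ¬ ε * s ≤ ∑ j, wt P (S j)),
          Real.exp (β * ∑ j, wt P (S j))
        ≤ ∑ _S ∈ univ.filter (fun S : Fin s → Fin n => ¬ ε * s ≤ ∑ j, wt P (S j)),
          Real.exp (β * (ε * s)) := by
          refine sum_le_sum fun S hS => Real.exp_le_exp.2 (mul_le_mul_of_nonneg_left ?_ hβ0)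
          rw [mem_filter] at hS
          exact (not_le.1 hS.2).le
      _ ≤ ∑ _S : Fin s → Fin n, Real.exp (β * (ε * s)) :=
          sum_le_univ_sum_of_nonneg fun _ => (Real.exp_pos _).le
      _ = _ := by
          rw [sum_const, nsmul_eq_mul, card_univ, Fintype.card_fun, Fintype.card_fin,
            Fintype.card_fin]
          push_cast; ring
  have hcs : (∑ S ∈ Gd, Real.exp (β * ∑ j, wt P (S j))) ^ 2 ≤
      (Gd.card : ℝ) * (((n : ℝ) + 1) * Real.cosh (2 * β)) ^ s := by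
    refine (sq_sum_le_card_mul_sum_sq).trans (mul_le_mul_of_nonneg_left ?_ (Nat.cast_nonneg _))
    refine le_trans ?_ hb
    calc ∑ S ∈ Gd, Real.exp (β * ∑ j, wt P (S j)) ^ 2
        = ∑ S ∈ Gd, Real.exp (2 * β * ∑ j, wt P (S j)) := by
          refine sum_congr rfl fun S _ => ?_
          rw [← Real.exp_nat_mul]; congr 1; push_cast; ring
      _ ≤ _ := sum_le_univ_sum_of_nonneg fun _ => (Real.exp_pos _).le
  -- the main term dominates
  have hdom : 2 * Real.exp (β * (ε * s)) ≤ Real.cosh β ^ s := by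
    have h3 : Real.exp (4 * ε ^ 2) ^ s ≤ Real.cosh β ^ s :=
      pow_le_pow_left₀ (Real.exp_pos _).le (cosh_low h0 h1) _
    refine le_trans ?_ h3
    rw [← Real.exp_nat_mul]
    have h4 : (s : ℝ) * (4 * ε ^ 2) = ε ^ 2 * s + β * (ε * s) := by rw [hβ]; ring
    rw [h4, Real.exp_add]
    exact mul_le_mul_of_nonneg_right h2 (Real.exp_pos _).le
  have hns : (0 : ℝ) < (n : ℝ) ^ s := by positivity
  have hlow : (n : ℝ) ^ s * Real.cosh β ^ s / 2 ≤ ∑ S ∈ Gd, Real.exp (β * ∑ j, wt P (S j)) := by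
    have h3 := ha.trans hsplit
    rw [mul_pow] at h3
    nlinarith [mul_le_mul_of_nonneg_left hdom hns.le]
  have hc0 : 0 < Real.cosh β ^ s := pow_pos (Real.cosh_pos _) _
  have h5 : ((n : ℝ) ^ s * Real.cosh β ^ s / 2) ^ 2 ≤
      (Gd.card : ℝ) * (((n : ℝ) + 1) * Real.cosh (2 * β)) ^ s :=
    (pow_le_pow_left₀ (by positivity) hlow 2).trans hcs
  -- `(n + 1) ^ s ≤ 3 n ^ s`
  have h6 : ((n : ℝ) + 1) ^ s ≤ 3 * (n : ℝ) ^ s := by
    have h7 : ((n : ℝ) + 1) ^ s = (n : ℝ) ^ s * (1 + 1 / n) ^ s := by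
      rw [← mul_pow]; congr 1; field_simp
    have h8 : (1 + 1 / (n : ℝ)) ^ s ≤ Real.exp 1 := by
      have h9 : 1 + 1 / (n : ℝ) ≤ Real.exp (1 / n) := by
        have := Real.add_one_le_exp (1 / (n : ℝ)); linarith
      refine (pow_le_pow_left₀ (by positivity) h9 s).trans ?_
      rw [← Real.exp_nat_mul, Real.exp_le_exp, mul_one_div, div_le_one hn0]
      exact_mod_cast hs
    have h9 : Real.exp 1 ≤ 3 := by
      have := Real.exp_one_lt_d9; linarith
    rw [h7]
    nlinarith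
  have hK : 0 < Real.cosh (2 * β) ^ s := pow_pos (Real.cosh_pos _) _
  have h7 : Real.exp (-(9 * ε ^ 2 * s)) * Real.cosh (2 * β) ^ s ≤ (Real.cosh β ^ s) ^ 2 := by
    have h8 := pow_le_pow_left₀ (mul_nonneg (Real.exp_pos _).le (Real.cosh_pos _).le)
      (cosh_ratio β) s
    rw [mul_pow, ← Real.exp_nat_mul] at h8
    have h9 : (s : ℝ) * -β ^ 2 = -(9 * ε ^ 2 * s) := by rw [hβ]; ring
    rw [h9] at h8
    calc _ ≤ (Real.cosh β ^ 2) ^ s := h8
      _ = (Real.cosh β ^ s) ^ 2 := by rw [← pow_mul, ← pow_mul, mul_comm]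
  -- conclusion
  have h8 : ((n : ℝ) ^ s) ^ 2 * (Real.exp (-(9 * ε ^ 2 * s)) * Real.cosh (2 * β) ^ s) / 4 ≤
      (Gd.card : ℝ) * (3 * (n : ℝ) ^ s) * Real.cosh (2 * β) ^ s := by
    calc _ ≤ ((n : ℝ) ^ s) ^ 2 * (Real.cosh β ^ s) ^ 2 / 4 := by
          have := mul_le_mul_of_nonneg_left h7 (sq_nonneg ((n : ℝ) ^ s))
          linarith
      _ = ((n : ℝ) ^ s * Real.cosh β ^ s / 2) ^ 2 := by ring
      _ ≤ (Gd.card : ℝ) * (((n : ℝ) + 1) * Real.cosh (2 * β)) ^ s := h5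
      _ = (Gd.card : ℝ) * ((n : ℝ) + 1) ^ s * Real.cosh (2 * β) ^ s := by rw [mul_pow]; ring
      _ ≤ _ := by
          refine mul_le_mul_of_nonneg_right ?_ hK.le
          exact mul_le_mul_of_nonneg_left h6 (Nat.cast_nonneg _)
  have h9 : ((n : ℝ) ^ s * (Real.exp (-(9 * ε ^ 2 * s)) / 12)) *
      ((n : ℝ) ^ s * Real.cosh (2 * β) ^ s * 3) ≤
      (Gd.card : ℝ) * ((n : ℝ) ^ s * Real.cosh (2 * β) ^ s * 3) := by
    calc _ = ((n : ℝ) ^ s) ^ 2 * (Real.exp (-(9 * ε ^ 2 * s)) * Real.cosh (2 * β) ^ s) / 4 := by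
          ring
      _ ≤ _ := h8
      _ = _ := by ring
  exact le_of_mul_le_mul_right h9 (by positivity)

/-- few functions are not injective -/
lemma noninj {n s : ℕ} (hn : 1 ≤ n) (hs1 : 1 ≤ s) (hs : s ≤ n) :
    (n : ℝ) * (({S : Fin s → Fin n | ¬ Function.Injective S} : Finset (Fin s → Fin n)).card : ℝ) ≤
      (s : ℝ) ^ 2 * (n : ℝ) ^ s := by
  classical
  have h1 : ({S : Fin s → Fin n | Function.Injective S} : Finset (Fin s → Fin n)).card =
      n.descFactorial s := by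
    rw [← Fintype.card_subtype, Fintype.card_congr (Equiv.subtypeInjectiveEquivEmbedding _ _),
      Fintype.card_embedding_eq, Fintype.card_fin, Fintype.card_fin]
  have h2 := card_filter_add_card_filter_not (s := (univ : Finset (Fin s → Fin n)))
    (p := fun S : Fin s → Fin n => Function.Injective S)
  rw [h1, card_univ, Fintype.card_fun, Fintype.card_fin, Fintype.card_fin] at h2
  have h3 := Nat.pow_sub_le_descFactorial n s
  have hn0 : (0 : ℝ) < n := by exact_mod_cast hn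
  have h4 : ((n + 1 - s : ℕ) : ℝ) = n * (1 + -(((s : ℝ) - 1) / n)) := by
    rw [Nat.cast_sub (by omega)]; push_cast; field_simp; ring
  have h5 : 1 + (s : ℝ) * -(((s : ℝ) - 1) / n) ≤ (1 + -(((s : ℝ) - 1) / n)) ^ s := by
    refine one_add_mul_le_pow ?_ s
    have : ((s : ℝ) - 1) / n ≤ 1 := by
      rw [div_le_one hn0]
      have : (s : ℝ) ≤ n := by exact_mod_cast hs
      linarith
    linarith
  have h6 : (n : ℝ) ^ s * (1 + (s : ℝ) * -(((s : ℝ) - 1) / n)) ≤ n.descFactorial s := by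
    have h7 : ((n + 1 - s : ℕ) : ℝ) ^ s ≤ n.descFactorial s := by exact_mod_cast h3
    rw [h4, mul_pow] at h7
    exact (mul_le_mul_of_nonneg_left h5 (by positivity)).trans h7
  have h8 : (({S : Fin s → Fin n | ¬ Function.Injective S} : Finset (Fin s → Fin n)).card : ℝ) =
      (n : ℝ) ^ s - n.descFactorial s := by
    rw [eq_sub_iff_add_eq]
    have : (({S : Fin s → Fin n | ¬ Function.Injective S} : Finset (Fin s → Fin n)).card) +
        n.descFactorial s = n ^ s := by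
      rw [add_comm]; exact h2
    exact_mod_cast this
  rw [h8]
  have h9 : (n : ℝ) ^ s - n.descFactorial s ≤ (n : ℝ) ^ s * ((s : ℝ) * (((s : ℝ) - 1) / n)) := by
    linarith
  have hs1' : (1 : ℝ) ≤ s := by exact_mod_cast hs1
  calc (n : ℝ) * ((n : ℝ) ^ s - n.descFactorial s)
      ≤ n * ((n : ℝ) ^ s * ((s : ℝ) * (((s : ℝ) - 1) / n))) :=
        mul_le_mul_of_nonneg_left h9 hn0.le
    _ = (n : ℝ) ^ s * ((s : ℝ) * ((s : ℝ) - 1)) := by field_simp
    _ ≤ (n : ℝ) ^ s * ((s : ℝ) ^ 2) := mul_le_mul_of_nonneg_left (by nlinarith) (by positivity)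
    _ = _ := by ring

end Pool.Agent.W2helper39.DR
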