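import Pool.Agent.W2helper39.DR.Asym

set_option autoImplicit false

/-!
# All `α` in `[0, 1/2)`
-/

namespace Pool.Agent.W2helper39.DR

open Finset Filter Topology

/-- the greedy form of Ramsey's theorem -/
lemma ramsey {n : ℕ} (G : SimpleGraph (Fin n)) : ∀ (k a b : ℕ), a + b = k →
    ∀ V : Finset (Fin n), 2 ^ k ≤ V.card →
      (∃ X ⊆ V, X.card = a ∧ ∀ i ∈ X, ∀ j ∈ X, i ≠ j → G.Adj i j) ∨
      (∃ X ⊆ V, X.card = b ∧ ∀ i ∈ X, ∀ j ∈ X, i ≠ j → ¬ G.Adj i j) := by
  classical
  intro k
  induction k with
  | zero =>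
    intro a b hab V _
    exact Or.inl ⟨∅, by simp, by simp; omega, by simp⟩
  | succ k ih =>
    intro a b hab V hV
    rcases Nat.eq_zero_or_pos a with ha | ha
    · exact Or.inl ⟨∅, by simp, by simp [ha], by simp⟩
    rcases Nat.eq_zero_or_pos b with hb | hb
    · exact Or.inr ⟨∅, by simp, by simp [hb], by simp⟩
    have hVpos : 0 < V.card := lt_of_lt_of_le (by positivity) hV
    obtain ⟨v, hv⟩ := card_pos.1 hVpos
    have h1 := card_filter_add_card_filter_not (s := V.erase v) (p := fun u => G.Adj v u)
    rw [card_erase_of_mem hv] at h1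
    have h2 : 2 ^ k ≤ ((V.erase v).filter fun u => G.Adj v u).card ∨
        2 ^ k ≤ ((V.erase v).filter fun u => ¬ G.Adj v u).card := by
      by_contra h
      push Not at h
      have : 2 ^ (k + 1) = 2 * 2 ^ k := by ring
      omega
    rcases h2 with h2 | h2
    · rcases ih (a - 1) b (by omega) _ h2 with ⟨X, hX, hc, hadj⟩ | ⟨X, hX, hc, hadj⟩
      · have hvX : v ∉ X := fun h => by
          have := hX h
          simp at this
        refine Or.inl ⟨insert v X, ?_, by rw [card_insert_of_notMem hvX]; omega, ?_⟩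
        · intro u hu
          rcases mem_insert.1 hu with rfl | hu
          · exact hv
          · exact mem_of_mem_erase (mem_filter.1 (hX hu)).1
        · intro i hi j hj hij
          rcases mem_insert.1 hi with hi | hi
          · rcases mem_insert.1 hj with hj | hj
            · exact absurd (hi.trans hj.symm) hij
            · rw [hi]; exact (mem_filter.1 (hX hj)).2
          · rcases mem_insert.1 hj with hj | hj
            · rw [hj]; exact (mem_filter.1 (hX hi)).2.symm
            · exact hadj i hi j hj hij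
      · exact Or.inr ⟨X, fun u hu => mem_of_mem_erase (mem_filter.1 (hX hu)).1, hc, hadj⟩
    · rcases ih a (b - 1) (by omega) _ h2 with ⟨X, hX, hc, hadj⟩ | ⟨X, hX, hc, hadj⟩
      · exact Or.inl ⟨X, fun u hu => mem_of_mem_erase (mem_filter.1 (hX hu)).1, hc, hadj⟩
      · have hvX : v ∉ X := fun h => by
          have := hX h
          simp at this
        refine Or.inr ⟨insert v X, ?_, by rw [card_insert_of_notMem hvX]; omega, ?_⟩
        · intro u hu
          rcases mem_insert.1 hu with rfl | hu
          · exact hv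
          · exact mem_of_mem_erase (mem_filter.1 (hX hu)).1
        · intro i hi j hj hij
          rcases mem_insert.1 hi with hi | hi
          · rcases mem_insert.1 hj with hj | hj
            · exact absurd (hi.trans hj.symm) hij
            · rw [hi]; exact (mem_filter.1 (hX hj)).2
          · rcases mem_insert.1 hj with hj | hj
            · rw [hj]; exact fun h => (mem_filter.1 (hX hi)).2 h.symm
            · exact hadj i hi j hj hij

lemma not_splits {n m : ℕ} {α : ℝ} (hα : 0 ≤ α) (hn : 4 ^ m ≤ n) : ¬ Splits n α m := by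
  classical
  rintro ⟨G, hG⟩
  have h1 : 2 ^ (m + m) ≤ (univ : Finset (Fin n)).card := by
    rw [card_univ, Fintype.card_fin, ← two_mul, pow_mul]
    simpa using hn
  rcases ramsey G (m + m) m m rfl univ h1 with ⟨X, _, hc, hadj⟩ | ⟨X, _, hc, hadj⟩
  · have h2 := (hG X hc.ge).2
    have h3 : inside Gᶜ X = 0 := by
      unfold inside
      rw [card_eq_zero]
      refine eq_empty_of_forall_notMem fun p hp => ?_
      simp only [mem_filter, mem_product, SimpleGraph.compl_adj] at hp
      exact hp.2.2.2 (hadj _ hp.1.1 _ hp.1.2 hp.2.1.ne)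
    rw [h3] at h2
    have : 0 ≤ α * (X.card.choose 2 : ℕ) := by positivity
    simp at h2
    linarith
  · have h2 := (hG X hc.ge).1
    have h3 : inside G X = 0 := by
      unfold inside
      rw [card_eq_zero]
      refine eq_empty_of_forall_notMem fun p hp => ?_
      simp only [mem_filter, mem_product] at hp
      exact hadj _ hp.1.1 _ hp.1.2 hp.2.1.ne hp.2.2
    rw [h3] at h2
    have : 0 ≤ α * (X.card.choose 2 : ℕ) := by positivity
    simp at h2
    linarith

lemma splits_mono {n m m' : ℕ} {α : ℝ} (h : m ≤ m') (hs : Splits n α m) : Splits n α m' := by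
  obtain ⟨G, hG⟩ := hs
  exact ⟨G, fun X hX => hG X (h.trans hX)⟩

theorem ramsey_low {n : ℕ} (hn : 1 ≤ n) {α : ℝ} (hα : 0 ≤ α) :
    Real.log n / Real.log 4 ≤ (F n α : ℝ) := by
  have hn0 : (0 : ℝ) < n := by exact_mod_cast hn
  have h4 : 0 < Real.log 4 := Real.log_pos (by norm_num)
  rw [div_le_iff₀ h4]
  by_contra hcon
  push Not at hcon
  have h1 : (4 : ℝ) ^ F n α ≤ n := by
    have h2 : Real.log ((4 : ℝ) ^ F n α) < Real.log n := by
      rw [Real.log_pow]; exact hcon
    exact ((Real.log_lt_log_iff (by positivity) hn0).1 h2).le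
  have h2 : 4 ^ F n α ≤ n := by exact_mod_cast h1
  exact not_splits hα h2 (F_spec n α).2

/-- the lower bound for all `α` in `[0, 1/2)` -/
theorem lower_all {α : ℝ} (hα0 : 0 ≤ α) (hα : α < 1 / 2) :
    ∀ᶠ n : ℕ in atTop, 1 / 2000 * (Real.log n / (1 / 2 - α) ^ 2) ≤ (F n α : ℝ) := by
  rcases le_or_gt (17 / 36) α with h | h
  · filter_upwards [lower_asym hα h, eventually_ge_atTop 1] with n hn h1
    refine le_trans ?_ hn
    have hδ : 0 < 1 / 2 - α := by linarith
    have hL : 0 ≤ Real.log n := Real.log_natCast_nonneg n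
    have h2 : Real.log n / (648 * (1 / 2 - α) ^ 2) = 1 / 648 * (Real.log n / (1 / 2 - α) ^ 2) := by
      field_simp
    rw [h2]
    exact mul_le_mul_of_nonneg_right (by norm_num) (by positivity)
  · filter_upwards [eventually_ge_atTop 1] with n hn
    refine le_trans ?_ (ramsey_low hn hα0)
    have hL : 0 ≤ Real.log n := Real.log_natCast_nonneg n
    have hδ : 1 / 36 < 1 / 2 - α := by linarith
    have h4 : Real.log 4 ≤ 1.3863 := by
      have h5 : Real.log 4 = 2 * Real.log 2 := by
        rw [show (4 : ℝ) = 2 ^ 2 by norm_num, Real.log_pow]; norm_num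
      have := Real.log_two_lt_d9
      rw [h5]; linarith
    have h4p : 0 < Real.log 4 := Real.log_pos (by norm_num)
    have h5 : Real.log n / (1 / 2 - α) ^ 2 ≤ 1296 * Real.log n := by
      rw [div_le_iff₀ (by positivity)]
      have h6 : (1 / 36 : ℝ) ^ 2 ≤ (1 / 2 - α) ^ 2 := pow_le_pow_left₀ (by norm_num) hδ.le 2
      nlinarith [mul_le_mul_of_nonneg_left h6 hL]
    rw [le_div_iff₀ h4p]
    calc 1 / 2000 * (Real.log n / (1 / 2 - α) ^ 2) * Real.log 4
        ≤ 1 / 2000 * (1296 * Real.log n) * 1.3863 := by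
          refine mul_le_mul (mul_le_mul_of_nonneg_left h5 (by norm_num)) h4 h4p.le (by positivity)
      _ ≤ Real.log n := by nlinarith

end Pool.Agent.W2helper39.DR
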