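import Pool.Agent.W2helper39.DR.Defs

set_option autoImplicit false

/-!
# The upper bound: a random colouring
-/

namespace Pool.Agent.W2helper39.DR

open Finset

/-- the graph of a colouring of the pairs -/
def gr {n : ℕ} (f : Fin n × Fin n → Bool) : SimpleGraph (Fin n) where
  Adj i j := i ≠ j ∧ f (min i j, max i j) = true
  symm := ⟨by
    rintro i j ⟨h1, h2⟩
    exact ⟨h1.symm, by rwa [min_comm, max_comm]⟩⟩
  loopless := ⟨fun i h => h.1 rfl⟩

lemma inside_gr {n : ℕ} (f : Fin n × Fin n → Bool) (X : Finset (Fin n)) :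
    inside (gr f) X = {p ∈ prs X | f p = true}.card := by
  classical
  unfold inside prs
  rw [filter_filter]
  congr 1
  ext p
  simp only [mem_filter]
  constructor
  · rintro ⟨h, h2, h3⟩
    have := h3.2
    rw [min_eq_left h2.le, max_eq_right h2.le] at this
    exact ⟨h, h2, this⟩
  · rintro ⟨h, h2, h3⟩
    refine ⟨h, h2, h2.ne, ?_⟩
    rw [min_eq_left h2.le, max_eq_right h2.le]
    exact h3

lemma inside_grc {n : ℕ} (f : Fin n × Fin n → Bool) (X : Finset (Fin n)) :
    inside (gr f)ᶜ X = {p ∈ prs X | f p = false}.card := by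
  classical
  unfold inside prs
  rw [filter_filter]
  congr 1
  ext p
  simp only [mem_filter, SimpleGraph.compl_adj]
  constructor
  · rintro ⟨h, h2, h3, h4⟩
    refine ⟨h, h2, ?_⟩
    by_contra h5
    rw [Bool.not_eq_false] at h5
    refine h4 ⟨h3, ?_⟩
    rw [min_eq_left h2.le, max_eq_right h2.le]
    exact h5
  · rintro ⟨h, h2, h3⟩
    refine ⟨h, h2, h2.ne, fun h4 => ?_⟩
    have := h4.2
    rw [min_eq_left h2.le, max_eq_right h2.le] at this
    rw [h3] at this
    exact absurd this (by simp)

/-- Chernoff's bound for colourings -/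
lemma chernoff {P : Type*} [Fintype P] [DecidableEq P] (A : Finset P) (c : Bool) {α : ℝ}
    (hα : α ≤ 1 / 2) :
    (({f : P → Bool | (({p ∈ A | f p = c}.card : ℕ) : ℝ) ≤ α * A.card} : Finset (P → Bool)).card : ℝ) ≤
      (2 : ℝ) ^ Fintype.card P * Real.exp (-(2 * (1 / 2 - α) ^ 2 * A.card)) := by
  classical
  set ε := 1 / 2 - α with hε
  have hε0 : 0 ≤ ε := by linarith
  set lam := 2 * ε with hlam
  -- the exponential moment
  have hmom : ∑ f : P → Bool, Real.exp (lam * ((A.card : ℝ) -
      2 * (({p ∈ A | f p = c}.card : ℕ) : ℝ))) =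
      (2 : ℝ) ^ Fintype.card P * Real.cosh lam ^ A.card := by
    have h1 : ∀ f : P → Bool, Real.exp (lam * ((A.card : ℝ) -
        2 * (({p ∈ A | f p = c}.card : ℕ) : ℝ))) =
        ∏ p, (if p ∈ A then Real.exp (if f p = c then -lam else lam) else 1) := by
      intro f
      rw [prod_ite_mem, univ_inter, ← Real.exp_sum]
      congr 1
      rw [sum_ite, sum_const, sum_const, nsmul_eq_mul, nsmul_eq_mul]
      have h2 : (({p ∈ A | ¬ f p = c}.card : ℕ) : ℝ) =
          A.card - (({p ∈ A | f p = c}.card : ℕ) : ℝ) := by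
        rw [eq_sub_iff_add_eq, ← Nat.cast_add, add_comm, card_filter_add_card_filter_not]
      rw [h2]
      ring
    rw [sum_congr rfl fun f _ => h1 f]
    have h3 := (Finset.prod_univ_sum (fun _ : P => (univ : Finset Bool))
      (fun p b => if p ∈ A then Real.exp (if b = c then -lam else lam) else (1 : ℝ))).symm
    rw [Fintype.piFinset_univ] at h3
    rw [h3]
    have h4 : ∀ p : P, ∑ b : Bool, (if p ∈ A then Real.exp (if b = c then -lam else lam) else (1 : ℝ)) =
        2 * (if p ∈ A then Real.cosh lam else 1) := by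
      intro p
      rw [Fintype.sum_bool]
      by_cases hp : p ∈ A
      · simp only [if_pos hp]
        rw [Real.cosh_eq]
        cases c <;> simp <;> ring
      · simp only [if_neg hp]; norm_num
    rw [prod_congr rfl fun p _ => h4 p, prod_mul_distrib, prod_const, card_univ,
      prod_ite_mem, univ_inter, prod_const]
  set B : Finset (P → Bool) :=
    {f : P → Bool | (({p ∈ A | f p = c}.card : ℕ) : ℝ) ≤ α * A.card} with hB
  have h5 : (B.card : ℝ) * Real.exp (lam * (2 * ε * A.card)) ≤
      ∑ f : P → Bool, Real.exp (lam * ((A.card : ℝ) -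
      2 * (({p ∈ A | f p = c}.card : ℕ) : ℝ))) := by
    calc (B.card : ℝ) * Real.exp (lam * (2 * ε * A.card))
        = ∑ _f ∈ B, Real.exp (lam * (2 * ε * A.card)) := by rw [sum_const, nsmul_eq_mul]
      _ ≤ ∑ f ∈ B, Real.exp (lam * ((A.card : ℝ) -
          2 * (({p ∈ A | f p = c}.card : ℕ) : ℝ))) := by
          refine sum_le_sum fun f hf => Real.exp_le_exp.2 (mul_le_mul_of_nonneg_left ?_ (by positivity))
          rw [hB, mem_filter] at hf
          have := hf.2
          rw [hε]
          nlinarith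
      _ ≤ _ := sum_le_univ_sum_of_nonneg fun _ => (Real.exp_pos _).le
  rw [hmom] at h5
  have h6 : Real.cosh lam ^ A.card ≤ Real.exp (lam ^ 2 / 2 * A.card) := by
    rw [mul_comm, Real.exp_nat_mul]
    exact pow_le_pow_left₀ (Real.cosh_pos _).le (Real.cosh_le_exp_half_sq lam) _
  have h7 : (B.card : ℝ) * Real.exp (lam * (2 * ε * A.card)) ≤
      (2 : ℝ) ^ Fintype.card P * Real.exp (lam ^ 2 / 2 * A.card) :=
    h5.trans (mul_le_mul_of_nonneg_left h6 (by positivity))
  have h8 : Real.exp (-(2 * ε ^ 2 * A.card)) =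
      Real.exp (lam ^ 2 / 2 * A.card) / Real.exp (lam * (2 * ε * A.card)) := by
    rw [← Real.exp_sub]; congr 1; rw [hlam]; ring
  rw [h8, ← mul_div_assoc, le_div_iff₀ (Real.exp_pos _)]
  exact h7

/-- **The upper bound.** -/
theorem upper {n : ℕ} {α x : ℝ} (hα : α ≤ 1 / 2) (hx : 0 ≤ x)
    (hx2 : 2 * ((1 + x) ^ n - 1) < 1) {m : ℕ} (hm : 1 ≤ m)
    (hmx : Real.exp (-((1 / 2 - α) ^ 2 * ((m : ℝ) - 1))) ≤ x) : Splits n α m := by
  classical
  by_contra hno
  unfold Splits at hno
  push Not at hno
  -- every colouring is bad for some set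
  set Bad : Finset (Fin n) → Bool → Finset (Fin n × Fin n → Bool) := fun X c =>
    {f : Fin n × Fin n → Bool | (({p ∈ prs X | f p = c}.card : ℕ) : ℝ) ≤ α * (prs X).card} with hBad
  have hcover : (univ : Finset (Fin n × Fin n → Bool)) ⊆
      ({X : Finset (Fin n) | m ≤ X.card} : Finset (Finset (Fin n))).biUnion
        (fun X => Bad X true ∪ Bad X false) := by
    intro f _
    obtain ⟨X, hX, h⟩ := hno (gr f)
    rw [mem_biUnion]
    refine ⟨X, by simpa using hX, ?_⟩
    rw [mem_union]
    by_cases h1 : α * (X.card.choose 2 : ℕ) < inside (gr f) X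
    · right
      have h2 := h h1
      rw [inside_grc] at h2
      rw [hBad, mem_filter, card_prs]
      exact ⟨mem_univ _, h2⟩
    · left
      rw [inside_gr] at h1
      rw [hBad, mem_filter, card_prs]
      exact ⟨mem_univ _, not_lt.1 h1⟩
  have hcard := card_le_card hcover
  have h1 : (2 : ℝ) ^ Fintype.card (Fin n × Fin n) ≤
      ∑ X ∈ ({X : Finset (Fin n) | m ≤ X.card} : Finset (Finset (Fin n))),
        ((Bad X true).card + (Bad X false).card : ℝ) := by
    have h2 : ((univ : Finset (Fin n × Fin n → Bool)).card : ℝ) =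
        (2 : ℝ) ^ Fintype.card (Fin n × Fin n) := by
      rw [card_univ, Fintype.card_fun, Fintype.card_bool]; push_cast; rfl
    rw [← h2]
    have h3 : (univ : Finset (Fin n × Fin n → Bool)).card ≤
        ∑ X ∈ ({X : Finset (Fin n) | m ≤ X.card} : Finset (Finset (Fin n))),
          ((Bad X true).card + (Bad X false).card) :=
      hcard.trans (card_biUnion_le.trans (sum_le_sum fun X _ => card_union_le _ _))
    exact_mod_cast h3
  have h4 : ∀ X ∈ ({X : Finset (Fin n) | m ≤ X.card} : Finset (Finset (Fin n))),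
      ((Bad X true).card + (Bad X false).card : ℝ) ≤
        (2 : ℝ) ^ Fintype.card (Fin n × Fin n) * (2 * x ^ X.card) := by
    intro X hX
    rw [mem_filter] at hX
    have hb : ∀ c, ((Bad X c).card : ℝ) ≤
        (2 : ℝ) ^ Fintype.card (Fin n × Fin n) * x ^ X.card := by
      intro c
      refine (chernoff (prs X) c hα).trans (mul_le_mul_of_nonneg_left ?_ (by positivity))
      have h5 : Real.exp (-((1 / 2 - α) ^ 2 * ((m : ℝ) - 1))) ^ X.card ≤ x ^ X.card :=
        pow_le_pow_left₀ (Real.exp_pos _).le hmx _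
      refine le_trans ?_ h5
      rw [← Real.exp_nat_mul, Real.exp_le_exp, card_prs]
      have hc1 : (1 : ℝ) ≤ X.card := by exact_mod_cast hm.trans hX.2
      have h6 : ((X.card.choose 2 : ℕ) : ℝ) = X.card * ((X.card : ℝ) - 1) / 2 :=
        Nat.cast_choose_two ℝ _
      rw [h6]
      have h7 : (m : ℝ) ≤ X.card := by exact_mod_cast hX.2
      have h8 : 0 ≤ (1 / 2 - α) ^ 2 * X.card := by positivity
      nlinarith [mul_le_mul_of_nonneg_left (sub_le_sub_right h7 1) h8]
    have := hb true
    have := hb false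
    linarith
  have h5 : ∑ X ∈ ({X : Finset (Fin n) | m ≤ X.card} : Finset (Finset (Fin n))), x ^ X.card ≤
      (1 + x) ^ n - 1 := by
    have h6 : ∑ X : Finset (Fin n), x ^ X.card = (1 + x) ^ n := by
      have := Finset.sum_pow_mul_eq_add_pow x 1 (univ : Finset (Fin n))
      simp only [one_pow, mul_one, card_univ, Fintype.card_fin, powerset_univ] at this
      rw [this, add_comm]
    rw [← h6]
    have h7 : (∅ : Finset (Fin n)) ∉ ({X : Finset (Fin n) | m ≤ X.card} : Finset (Finset (Fin n))) := by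
      simp; omega
    have h8 := sum_le_univ_sum_of_nonneg (s := insert ∅ ({X : Finset (Fin n) | m ≤ X.card} :
      Finset (Finset (Fin n)))) (f := fun X : Finset (Fin n) => x ^ X.card)
      (fun X => by positivity)
    rw [sum_insert h7] at h8
    simp only [card_empty, pow_zero] at h8
    linarith
  have h9 : (2 : ℝ) ^ Fintype.card (Fin n × Fin n) ≤
      (2 : ℝ) ^ Fintype.card (Fin n × Fin n) * (2 * ((1 + x) ^ n - 1)) := by
    refine h1.trans ((sum_le_sum h4).trans ?_)
    rw [← mul_sum, ← mul_sum]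
    refine mul_le_mul_of_nonneg_left ?_ (by positivity)
    linarith
  have h10 : (0 : ℝ) < (2 : ℝ) ^ Fintype.card (Fin n × Fin n) := by positivity
  nlinarith

end Pool.Agent.W2helper39.DR
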